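import Pool.Agent.helper16.LW.Spec
import Pool.Agent.helper86.LV.All

/-!
# Project lw: module LVS (large values near separated points)
-/

set_option autoImplicit false

open Complex MeasureTheory

namespace Pool.Agent.LW

open Pool.Agent.ZD Pool.Agent.helper84.DM Pool.Agent.helper78.ED Pool.Agent.DH

theorem LVS_rot (N : ℕ) (a : ℕ → ℂ) (S u : ℝ) :
    DP N (fun n => a n * (n : ℂ) ^ ((S : ℂ) * I)) (u + S) = DP N a u := by
  unfold DP
  refine Finset.sum_congr rfl fun n hn => ?_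
  have hn0 : (n : ℂ) ≠ 0 := by
    have h1 := (Finset.mem_Ioc.1 hn).1
    exact_mod_cast (by omega : n ≠ 0)
  rw [mul_assoc, ← Complex.cpow_add _ _ hn0]
  congr 2
  push_cast
  ring

theorem LVS_G (N : ℕ) (a : ℕ → ℂ) (S : ℝ) (h : Co N a) :
    ∑ n ∈ Finset.Ioc N (2 * N), ‖a n * (n : ℂ) ^ ((S : ℂ) * I)‖ ^ 2 ≤ N := by
  have h1 : ∀ n ∈ Finset.Ioc N (2 * N), ‖a n * (n : ℂ) ^ ((S : ℂ) * I)‖ ^ 2 ≤ 1 := by
    intro n hn
    have hn0 : 0 < n := by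
      have h1 := (Finset.mem_Ioc.1 hn).1
      omega
    rw [norm_mul, Complex.norm_natCast_cpow_of_pos hn0]
    have h2 : ((S : ℂ) * I).re = 0 := by simp
    rw [h2, Real.rpow_zero, mul_one]
    exact pow_le_one₀ (norm_nonneg _) (h n hn)
  calc ∑ n ∈ Finset.Ioc N (2 * N), ‖a n * (n : ℂ) ^ ((S : ℂ) * I)‖ ^ 2
      ≤ ∑ n ∈ Finset.Ioc N (2 * N), (1 : ℝ) := Finset.sum_le_sum h1
    _ = N := by
      rw [Finset.sum_const, Nat.card_Ioc, nsmul_eq_mul, mul_one]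
      congr 1
      omega

theorem LVS_sep (t t' : ℝ) (q : ℕ) (ht : 0 ≤ t) (h : ⌊t⌋₊ % q = ⌊t'⌋₊ % q)
    (hlt : ⌊t⌋₊ < ⌊t'⌋₊) : (q : ℝ) - 1 < t' - t := by
  have h1 : q ∣ ⌊t'⌋₊ - ⌊t⌋₊ := (Nat.modEq_iff_dvd' hlt.le).1 h
  have h2 : q ≤ ⌊t'⌋₊ - ⌊t⌋₊ := Nat.le_of_dvd (by omega) h1
  have h3 : ⌊t⌋₊ + q ≤ ⌊t'⌋₊ := by omega
  have h4 : ((⌊t⌋₊ : ℕ) : ℝ) + q ≤ ⌊t'⌋₊ := by exact_mod_cast h3
  have h5 : t < ⌊t⌋₊ + 1 := Nat.lt_floor_add_one t
  have h6 : 0 ≤ t' := by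
    by_contra hneg
    rw [Nat.floor_of_nonpos (not_le.1 hneg).le] at hlt
    omega
  have h7 : ((⌊t'⌋₊ : ℕ) : ℝ) ≤ t' := Nat.floor_le h6
  linarith

theorem LVS_sep' (t t' : ℝ) (q : ℕ) (ht : 0 ≤ t) (ht' : 0 ≤ t') (h : ⌊t⌋₊ % q = ⌊t'⌋₊ % q)
    (hd : 1 ≤ |t - t'|) : (q : ℝ) - 1 < |t - t'| := by
  rcases lt_trichotomy ⌊t⌋₊ ⌊t'⌋₊ with h1 | h1 | h1
  · have h2 := LVS_sep t t' q ht h h1
    have h3 : t' - t ≤ |t - t'| := by
      rw [abs_sub_comm]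
      exact le_abs_self _
    linarith
  · exfalso
    have h2 : t < ⌊t⌋₊ + 1 := Nat.lt_floor_add_one t
    have h3 : t' < ⌊t'⌋₊ + 1 := Nat.lt_floor_add_one t'
    have h4 : ((⌊t⌋₊ : ℕ) : ℝ) ≤ t := Nat.floor_le ht
    have h5 : ((⌊t'⌋₊ : ℕ) : ℝ) ≤ t' := Nat.floor_le ht'
    have h6 : ((⌊t⌋₊ : ℕ) : ℝ) = ⌊t'⌋₊ := by exact_mod_cast h1
    have h7 : |t - t'| < 1 := by
      rw [abs_lt]
      constructor <;> linarith
    linarith
  · have h2 := LVS_sep t' t q ht' h.symm h1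
    have h3 : t - t' ≤ |t - t'| := le_abs_self _
    linarith

theorem LVS : LVS_stmt := by
  intro ε hε
  obtain ⟨C₀, hC₀, hlib⟩ := Pool.Agent.LV.large_values ε hε
  have h3 : (0 : ℝ) < 3 ^ ε := Real.rpow_pos_of_pos (by norm_num) ε
  refine ⟨10 * (C₀ * 3 ^ ε), by positivity, ?_⟩
  intro T N a V S W hT hN hNT hV hS hST hW hCo hval hbig
  have hT0 : 0 ≤ T := by linarith
  have hTε : 0 < T ^ ε := Real.rpow_pos_of_pos (by linarith) ε
  have hN0 : (0 : ℝ) ≤ N := Nat.cast_nonneg N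
  choose! s hs using hval
  set q : ℕ := ⌈2 * S⌉₊ + 2 with hq
  have hq0 : 0 < q := by omega
  have hq1 : 2 * S + 1 ≤ (q : ℝ) - 1 := by
    have h4 : 2 * S ≤ ⌈2 * S⌉₊ := Nat.le_ceil _
    rw [hq]
    push_cast
    linarith
  have hq2 : (q : ℝ) ≤ 5 * S := by
    have h4 : ((⌈2 * S⌉₊ : ℕ) : ℝ) < 2 * S + 1 := Nat.ceil_lt_add_one (by linarith)
    rw [hq]
    push_cast
    linarith
  set a' : ℕ → ℂ := fun n => a n * (n : ℂ) ^ ((S : ℂ) * I) with ha'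
  set G : ℝ := ∑ n ∈ Finset.Ioc N (2 * N), ‖a' n‖ ^ 2 with hG
  have hG0 : 0 ≤ G := Finset.sum_nonneg fun _ _ => by positivity
  have hG1 : G ≤ N := LVS_G N a S hCo
  have h3T : (3 * T) ^ ε = 3 ^ ε * T ^ ε := Real.mul_rpow (by norm_num) hT0
  have hpow : (N : ℝ) ^ (3 / 2 : ℝ) = (N : ℝ) ^ (1 / 2 : ℝ) * N := by
    have hNp : (0 : ℝ) < N := by exact_mod_cast hN
    rw [← Real.rpow_add_one hNp.ne']
    norm_num
  -- the bound for one class
  have hclass : ∀ c ∈ Finset.range q, ((W.filter fun t => ⌊t⌋₊ % q = c).card : ℝ) ≤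
      2 * (C₀ * 3 ^ ε) * T ^ ε * ((N : ℝ) ^ 2 / V ^ 2 + T ^ (1 / 2 : ℝ) * (N : ℝ) ^ 3 / V ^ 4) := by
    intro c _
    set Wc := W.filter fun t => ⌊t⌋₊ % q = c with hWc
    have hsub : ∀ t ∈ Wc, t ∈ W := fun t ht => (Finset.mem_filter.1 ht).1
    have hsep : ∀ t ∈ Wc, ∀ t' ∈ Wc, t ≠ t' → 1 ≤ |(t + s t + S) - (t' + s t' + S)| := by
      intro t ht t' ht' hne
      have h4 := LVS_sep' t t' q (hW.1 t (hsub t ht)).1 (hW.1 t' (hsub t' ht')).1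
        (((Finset.mem_filter.1 ht).2).trans ((Finset.mem_filter.1 ht').2).symm)
        (hW.2 t (hsub t ht) t' (hsub t' ht') hne)
      have h5 := (hs t (hsub t ht)).1
      have h6 := (hs t' (hsub t' ht')).1
      have h7 : |t - t'| ≤ |(t + s t + S) - (t' + s t' + S)| + |s t| + |s t'| := by
        have h8 : t - t' = ((t + s t + S) - (t' + s t' + S)) + (-(s t) + s t') := by ring
        calc |t - t'| = |((t + s t + S) - (t' + s t' + S)) + (-(s t) + s t')| := by rw [← h8]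
          _ ≤ |(t + s t + S) - (t' + s t' + S)| + |-(s t) + s t'| := abs_add_le _ _
          _ ≤ |(t + s t + S) - (t' + s t' + S)| + (|-(s t)| + |s t'|) := by
            have := abs_add_le (-(s t)) (s t')
            linarith
          _ = _ := by rw [abs_neg]; ring
      linarith
    have hinj : Set.InjOn (fun t => t + s t + S) (Wc : Set ℝ) := by
      intro t ht t' ht' heq
      by_contra hne
      have h4 := hsep t ht t' ht' hne
      have h5 : (t + s t + S) - (t' + s t' + S) = 0 := sub_eq_zero.2 heq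
      rw [h5, abs_zero] at h4
      linarith
    have hcard : (Wc.image fun t => t + s t + S).card = Wc.card :=
      Finset.card_image_of_injOn hinj
    have h5 := hlib (3 * T) N a' V (Wc.image fun t => t + s t + S) (by linarith) hN (by linarith) hV
      (by
        intro x hx
        obtain ⟨t, ht, rfl⟩ := Finset.mem_image.1 hx
        have h6 := hW.1 t (hsub t ht)
        have h7 := abs_le.1 (hs t (hsub t ht)).1
        constructor <;> linarith [h6.1, h6.2, h7.1, h7.2])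
      (by
        intro x hx y hy hxy
        obtain ⟨t, ht, rfl⟩ := Finset.mem_image.1 hx
        obtain ⟨t', ht', rfl⟩ := Finset.mem_image.1 hy
        exact hsep t ht t' ht' fun h => hxy (by rw [h]))
      (by
        intro x hx
        obtain ⟨t, ht, rfl⟩ := Finset.mem_image.1 hx
        have h6 := (hs t (hsub t ht)).2
        rw [← LVS_rot N a S (t + s t)] at h6
        exact h6)
      (by
        refine le_trans ?_ hbig
        rw [h3T, hpow]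
        have h6 : C₀ * (3 ^ ε * T ^ ε) * (N : ℝ) ^ (1 / 2 : ℝ) * G ≤
            C₀ * (3 ^ ε * T ^ ε) * (N : ℝ) ^ (1 / 2 : ℝ) * N :=
          mul_le_mul_of_nonneg_left hG1 (by positivity)
        refine h6.trans ?_
        have h7 : 0 ≤ C₀ * (3 ^ ε * T ^ ε) * (N : ℝ) ^ (1 / 2 : ℝ) * N := by positivity
        nlinarith)
    rw [hcard] at h5
    refine h5.trans ?_
    rw [h3T]
    have h6 : N * G / V ^ 2 ≤ (N : ℝ) ^ 2 / V ^ 2 := by
      apply div_le_div_of_nonneg_right _ (by positivity)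
      nlinarith
    have h7 : (3 * T) ^ (1 / 2 : ℝ) ≤ 2 * T ^ (1 / 2 : ℝ) := by
      rw [Real.mul_rpow (by norm_num) hT0]
      apply mul_le_mul_of_nonneg_right _ (by positivity)
      have h8 : (3 : ℝ) ^ (1 / 2 : ℝ) ≤ 4 ^ (1 / 2 : ℝ) :=
        Real.rpow_le_rpow (by norm_num) (by norm_num) (by norm_num)
      have h9 : (4 : ℝ) ^ (1 / 2 : ℝ) = 2 := by
        rw [← Real.sqrt_eq_rpow]
        rw [show (4 : ℝ) = 2 ^ 2 by norm_num]
        exact Real.sqrt_sq (by norm_num)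
      linarith
    have h8 : (3 * T) ^ (1 / 2 : ℝ) * N * G ^ 2 / V ^ 4 ≤
        2 * (T ^ (1 / 2 : ℝ) * (N : ℝ) ^ 3 / V ^ 4) := by
      have h9 : (3 * T) ^ (1 / 2 : ℝ) * N * G ^ 2 ≤ 2 * T ^ (1 / 2 : ℝ) * N * (N : ℝ) ^ 2 := by
        apply mul_le_mul _ (pow_le_pow_left₀ hG0 hG1 2) (by positivity) (by positivity)
        exact mul_le_mul_of_nonneg_right h7 hN0
      calc (3 * T) ^ (1 / 2 : ℝ) * N * G ^ 2 / V ^ 4
          ≤ 2 * T ^ (1 / 2 : ℝ) * N * (N : ℝ) ^ 2 / V ^ 4 :=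
            div_le_div_of_nonneg_right h9 (by positivity)
        _ = _ := by ring
    have h10 : 0 ≤ (N : ℝ) ^ 2 / V ^ 2 := by positivity
    have h11 : N * G / V ^ 2 + (3 * T) ^ (1 / 2 : ℝ) * N * G ^ 2 / V ^ 4 ≤
        2 * ((N : ℝ) ^ 2 / V ^ 2 + T ^ (1 / 2 : ℝ) * (N : ℝ) ^ 3 / V ^ 4) := by linarith
    calc C₀ * (3 ^ ε * T ^ ε) * (N * G / V ^ 2 + (3 * T) ^ (1 / 2 : ℝ) * N * G ^ 2 / V ^ 4)
        ≤ C₀ * (3 ^ ε * T ^ ε) *
          (2 * ((N : ℝ) ^ 2 / V ^ 2 + T ^ (1 / 2 : ℝ) * (N : ℝ) ^ 3 / V ^ 4)) :=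
          mul_le_mul_of_nonneg_left h11 (by positivity)
      _ = _ := by ring
  -- the sum over the classes
  have hsum : (W.card : ℝ) = ∑ c ∈ Finset.range q, ((W.filter fun t => ⌊t⌋₊ % q = c).card : ℝ) := by
    have h4 := Finset.card_eq_sum_card_fiberwise (f := fun t : ℝ => ⌊t⌋₊ % q) (s := W)
      (t := Finset.range q) fun t _ => Finset.mem_coe.2 (Finset.mem_range.2 (Nat.mod_lt _ hq0))
    exact_mod_cast h4
  rw [hsum]
  refine (Finset.sum_le_sum hclass).trans ?_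
  rw [Finset.sum_const, Finset.card_range, nsmul_eq_mul]
  have h12 : 0 ≤ 2 * (C₀ * 3 ^ ε) * T ^ ε *
      ((N : ℝ) ^ 2 / V ^ 2 + T ^ (1 / 2 : ℝ) * (N : ℝ) ^ 3 / V ^ 4) := by positivity
  calc (q : ℝ) * (2 * (C₀ * 3 ^ ε) * T ^ ε *
        ((N : ℝ) ^ 2 / V ^ 2 + T ^ (1 / 2 : ℝ) * (N : ℝ) ^ 3 / V ^ 4))
      ≤ 5 * S * (2 * (C₀ * 3 ^ ε) * T ^ ε *
        ((N : ℝ) ^ 2 / V ^ 2 + T ^ (1 / 2 : ℝ) * (N : ℝ) ^ 3 / V ^ 4)) :=
        mul_le_mul_of_nonneg_right hq2 h12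
    _ = _ := by ring

end Pool.Agent.LW
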